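import Pool.Agent.W500.CS.Stm

set_option autoImplicit false

open MeasureTheory Polynomial Metric Set Filter Topology
open scoped ComplexConjugate NNReal

namespace Pool.Agent.W271.CQ

open Pool.Agent.W500.CS

/-- second differences of a function with locally Lipschitz derivative -/
theorem second {E : Type} [NormedAddCommGroup E] [NormedSpace ℝ E] {f : ℝ → E} {t₀ : ℝ}
    (hf : ContDiffAt ℝ 2 f t₀) : ∃ δ > 0, ∃ M : ℝ, 0 ≤ M ∧ ∀ s ∈ Ioo (t₀ - δ) (t₀ + δ),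
      ∀ u ∈ Ioo (t₀ - δ) (t₀ + δ), ∀ p q : ℝ, 0 ≤ p → 0 ≤ q → p + q = 1 →
      ‖f (p * s + q * u) - p • f s - q • f u‖ ≤ M * (p * q * (u - s) ^ 2) := by
  have h1 : ContDiffAt ℝ 1 (fderiv ℝ f) t₀ := hf.fderiv_right (by norm_num)
  obtain ⟨K, S, hS, hK⟩ := h1.exists_lipschitzOnWith
  have h2 : ∀ᶠ y in 𝓝 t₀, ContDiffAt ℝ 2 f y := hf.eventually (by simp)
  obtain ⟨δ, hδ, hball⟩ := Metric.mem_nhds_iff.1 (Filter.inter_mem hS h2)
  have hIoo : ∀ x ∈ Ioo (t₀ - δ) (t₀ + δ), x ∈ S ∧ ContDiffAt ℝ 2 f x := by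
    intro x hx
    have : x ∈ ball t₀ δ := by rwa [Real.ball_eq_Ioo]
    exact hball this
  have hdiff : ∀ x ∈ Ioo (t₀ - δ) (t₀ + δ), HasDerivAt f (deriv f x) x := fun x hx =>
    ((hIoo x hx).2.differentiableAt (by simp)).hasDerivAt
  have hlip : ∀ x ∈ Ioo (t₀ - δ) (t₀ + δ), ∀ y ∈ Ioo (t₀ - δ) (t₀ + δ),
      ‖deriv f x - deriv f y‖ ≤ K * |x - y| := by
    intro x hx y hy
    have h3 := hK.norm_sub_le (hIoo x hx).1 (hIoo y hy).1
    have h4 : deriv f x - deriv f y = (fderiv ℝ f x - fderiv ℝ f y) 1 := by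
      rw [_root_.sub_apply, fderiv_apply_one_eq_deriv, fderiv_apply_one_eq_deriv]
    rw [h4]
    calc ‖(fderiv ℝ f x - fderiv ℝ f y) 1‖ ≤ ‖fderiv ℝ f x - fderiv ℝ f y‖ * ‖(1 : ℝ)‖ :=
          ContinuousLinearMap.le_opNorm _ _
      _ = ‖fderiv ℝ f x - fderiv ℝ f y‖ := by rw [norm_one, mul_one]
      _ ≤ K * |x - y| := h3
  -- first order Taylor
  have htay : ∀ x ∈ Ioo (t₀ - δ) (t₀ + δ), ∀ y ∈ Ioo (t₀ - δ) (t₀ + δ),
      ‖f y - f x - (y - x) • deriv f x‖ ≤ K * (y - x) ^ 2 := by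
    intro x hx y hy
    have hsub : uIcc x y ⊆ Ioo (t₀ - δ) (t₀ + δ) := by
      intro z hz
      rw [mem_uIcc] at hz
      rcases hz with hz | hz
      · exact ⟨lt_of_lt_of_le hx.1 hz.1, lt_of_le_of_lt hz.2 hy.2⟩
      · exact ⟨lt_of_lt_of_le hy.1 hz.1, lt_of_le_of_lt hz.2 hx.2⟩
    have h3 := Convex.norm_image_sub_le_of_norm_hasDerivWithin_le
      (f := fun z => f z - z • deriv f x) (f' := fun z => deriv f z - deriv f x)
      (C := K * |y - x|) (s := uIcc x y) (x := x) (y := y) (fun z hz => by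
        have h5 : HasDerivAt (fun z : ℝ => z • deriv f x) ((1 : ℝ) • deriv f x) z :=
          (hasDerivAt_id z).smul_const (deriv f x)
        rw [one_smul] at h5
        exact ((hdiff z (hsub hz)).sub h5).hasDerivWithinAt) (fun z hz => by
        refine (hlip z (hsub hz) x hx).trans ?_
        apply mul_le_mul_of_nonneg_left _ K.coe_nonneg
        rw [mem_uIcc] at hz
        rcases hz with hz | hz
        · rw [abs_of_nonneg (by linarith [hz.1]), abs_of_nonneg (by linarith [hz.1, hz.2])]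
          linarith [hz.2]
        · rw [abs_of_nonpos (by linarith [hz.2]), abs_of_nonpos (by linarith [hz.1, hz.2])]
          linarith [hz.1]) (convex_uIcc x y) left_mem_uIcc right_mem_uIcc
    have h4 : f y - f x - (y - x) • deriv f x =
        (f y - y • deriv f x) - (f x - x • deriv f x) := by
      rw [sub_smul]; abel
    rw [h4]
    refine h3.trans (le_of_eq ?_)
    rw [Real.norm_eq_abs, mul_assoc, abs_mul_abs_self, sq]
  refine ⟨δ, hδ, K, K.coe_nonneg, ?_⟩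
  intro s hs u hu p q hp hq hpq
  have ht : p * s + q * u ∈ Ioo (t₀ - δ) (t₀ + δ) := by
    have := (convex_Ioo (t₀ - δ) (t₀ + δ)) hs hu hp hq hpq
    simpa using this
  have h5 := htay _ ht s hs
  have h6 := htay _ ht u hu
  set t := p * s + q * u with htdef
  have h7 : s - t = -(q * (u - s)) := by
    rw [htdef]
    have : p = 1 - q := by linarith
    rw [this]; ring
  have h8 : u - t = p * (u - s) := by
    rw [htdef]
    have : q = 1 - p := by linarith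
    rw [this]; ring
  have h9 : f t - p • f s - q • f u = -(p • (f s - f t - (s - t) • deriv f t)) -
      q • (f u - f t - (u - t) • deriv f t) := by
    have h10 : f t = p • f t + q • f t := by rw [← add_smul, hpq, one_smul]
    rw [h7, h8]
    nth_rewrite 1 [h10]
    simp only [smul_sub, smul_smul, neg_smul, smul_neg]
    have h11 : (p * (q * (u - s))) • deriv f t = (q * (p * (u - s))) • deriv f t := by
      congr 1; ring
    rw [h11]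
    abel
  rw [h9]
  calc ‖-(p • (f s - f t - (s - t) • deriv f t)) - q • (f u - f t - (u - t) • deriv f t)‖
      ≤ ‖-(p • (f s - f t - (s - t) • deriv f t))‖ +
        ‖q • (f u - f t - (u - t) • deriv f t)‖ := norm_sub_le _ _
    _ = p * ‖f s - f t - (s - t) • deriv f t‖ + q * ‖f u - f t - (u - t) • deriv f t‖ := by
        rw [norm_neg, norm_smul, norm_smul, Real.norm_of_nonneg hp, Real.norm_of_nonneg hq]
    _ ≤ p * (K * (s - t) ^ 2) + q * (K * (u - t) ^ 2) :=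
        add_le_add (mul_le_mul_of_nonneg_left h5 hp) (mul_le_mul_of_nonneg_left h6 hq)
    _ = K * (p * q * (u - s) ^ 2) * (p + q) := by rw [h7, h8]; ring
    _ = K * (p * q * (u - s) ^ 2) := by rw [hpq, mul_one]

/-- local Lipschitz constants -/
theorem scon_lip {W : Set ℂ} {U : ℂ → ℝ} (hU : SCon W U) {x : ℂ} (hx : x ∈ W) :
    ∃ ε > 0, ∃ (C : ℝ) (K : ℝ≥0), ConvexOn ℝ (ball x ε) (fun y => U y + C * ‖y‖ ^ 2) ∧
      LipschitzOnWith K (fun y => U y + C * ‖y‖ ^ 2) (ball x ε) := by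
  obtain ⟨ε, hε, C, -, hconv⟩ := hU x hx
  have hl := hconv.locallyLipschitzOn isOpen_ball
  obtain ⟨K, S, hS, hK⟩ := hl (mem_ball_self hε)
  rw [isOpen_ball.nhdsWithin_eq (mem_ball_self hε)] at hS
  obtain ⟨ε', hε', hsub⟩ := Metric.mem_nhds_iff.1 (Filter.inter_mem hS (ball_mem_nhds x hε))
  refine ⟨ε', hε', C, K, ?_, ?_⟩
  · exact hconv.subset (fun y hy => (hsub hy).2) (convex_ball _ _)
  · exact hK.mono (fun y hy => (hsub hy).1)

theorem part1 {W : Set ℂ} {U : ℂ → ℝ} (hU : SCon W U) {γ : ℝ → ℂ} {t₀ : ℝ} (hW : γ t₀ ∈ W)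
    (hγ : ContDiffAt ℝ 2 γ t₀) : ∃ ε > 0, ∃ C : ℝ,
      ConvexOn ℝ (Ioo (t₀ - ε) (t₀ + ε)) (fun y => U (γ y) + C * y ^ 2) := by
  obtain ⟨ε₁, hε₁, C₀, K, hconv, hlip⟩ := scon_lip hU hW
  obtain ⟨δ₁, hδ₁, M₁, hM₁, h1⟩ := second hγ
  obtain ⟨δ₂, hδ₂, M₂, hM₂, h2⟩ := second (f := fun t => ‖γ t‖ ^ 2) (hγ.norm_sq ℝ)
  have hcont : ∀ᶠ t in 𝓝 t₀, γ t ∈ ball (γ t₀) ε₁ :=
    hγ.continuousAt.eventually (ball_mem_nhds _ hε₁)
  obtain ⟨δ₃, hδ₃, h3⟩ := Metric.eventually_nhds_iff_ball.1 hcont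
  set δ := min δ₁ (min δ₂ δ₃) with hδdef
  have hδ : 0 < δ := lt_min hδ₁ (lt_min hδ₂ hδ₃)
  have hd1 : δ ≤ δ₁ := min_le_left _ _
  have hd2 : δ ≤ δ₂ := (min_le_right _ _).trans (min_le_left _ _)
  have hd3 : δ ≤ δ₃ := (min_le_right _ _).trans (min_le_right _ _)
  refine ⟨δ, hδ, K * M₁ + |C₀| * M₂, convex_Ioo _ _, ?_⟩
  intro s hs u hu p q hp hq hpq
  have hs1 : s ∈ Ioo (t₀ - δ₁) (t₀ + δ₁) := ⟨by linarith [hs.1], by linarith [hs.2]⟩
  have hu1 : u ∈ Ioo (t₀ - δ₁) (t₀ + δ₁) := ⟨by linarith [hu.1], by linarith [hu.2]⟩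
  have hs2 : s ∈ Ioo (t₀ - δ₂) (t₀ + δ₂) := ⟨by linarith [hs.1], by linarith [hs.2]⟩
  have hu2 : u ∈ Ioo (t₀ - δ₂) (t₀ + δ₂) := ⟨by linarith [hu.1], by linarith [hu.2]⟩
  have ht : p * s + q * u ∈ Ioo (t₀ - δ) (t₀ + δ) := by
    have := (convex_Ioo (t₀ - δ) (t₀ + δ)) hs hu hp hq hpq
    simpa using this
  have hb : ∀ x ∈ Ioo (t₀ - δ) (t₀ + δ), γ x ∈ ball (γ t₀) ε₁ := by
    intro x hx
    apply h3
    rw [Real.ball_eq_Ioo]
    exact ⟨by linarith [hx.1], by linarith [hx.2]⟩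
  have k1 := h1 s hs1 u hu1 p q hp hq hpq
  have k2 := h2 s hs2 u hu2 p q hp hq hpq
  have k3 := hconv.2 (hb s hs) (hb u hu) hp hq hpq
  have hcomb : p • γ s + q • γ u ∈ ball (γ t₀) ε₁ :=
    (convex_ball _ _) (hb s hs) (hb u hu) hp hq hpq
  have k4 := hlip.norm_sub_le (hb _ ht) hcomb
  simp only [smul_eq_mul] at k2 k3 ⊢
  rw [Real.norm_eq_abs] at k2 k4
  have k5 : ‖γ (p * s + q * u) - (p • γ s + q • γ u)‖ ≤ M₁ * (p * q * (u - s) ^ 2) := by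
    have : γ (p * s + q * u) - (p • γ s + q • γ u) =
      γ (p * s + q * u) - p • γ s - q • γ u := by abel
    rw [this]
    exact k1
  have k6 : (K : ℝ) * ‖γ (p * s + q * u) - (p • γ s + q • γ u)‖ ≤
      K * (M₁ * (p * q * (u - s) ^ 2)) := mul_le_mul_of_nonneg_left k5 K.coe_nonneg
  have k7 := (abs_le.1 k4).2
  have k8 := abs_le.1 k2
  have hq2 : (p * s + q * u) ^ 2 = p * s ^ 2 + q * u ^ 2 - p * q * (u - s) ^ 2 := by
    have : p = 1 - q := by linarith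
    rw [this]; ring
  rw [hq2]
  have k9 : -(C₀ * (‖γ (p * s + q * u)‖ ^ 2 - p * ‖γ s‖ ^ 2 - q * ‖γ u‖ ^ 2)) ≤
      |C₀| * (M₂ * (p * q * (u - s) ^ 2)) := by
    calc -(C₀ * (‖γ (p * s + q * u)‖ ^ 2 - p * ‖γ s‖ ^ 2 - q * ‖γ u‖ ^ 2)) ≤
        |C₀ * (‖γ (p * s + q * u)‖ ^ 2 - p * ‖γ s‖ ^ 2 - q * ‖γ u‖ ^ 2)| := neg_le_abs _
      _ = |C₀| * |‖γ (p * s + q * u)‖ ^ 2 - p * ‖γ s‖ ^ 2 - q * ‖γ u‖ ^ 2| := abs_mul _ _
      _ ≤ _ := mul_le_mul_of_nonneg_left k2 (abs_nonneg _)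
  nlinarith [k3, k6, k7, k9]

theorem part2 {r : ℕ} {W : Set ℂ} {U : ℂ → ℝ} {B : Fin r → ℂ → ℂ} (hD : S_DIR)
    (hdat : Dat W U B) {γ : ℝ → ℂ} {t₀ : ℝ} (hW : γ t₀ ∈ W)
    (hγ : ContDiffAt ℝ 2 γ t₀) : ∃ i,
      HasDerivWithinAt (fun t => U (γ t)) ((B i (γ t₀) * deriv γ t₀).re) (Ioi t₀) t₀ := by
  obtain ⟨i, hi⟩ := hD r W U B hdat (γ t₀) hW (deriv γ t₀)
  refine ⟨i, ?_⟩
  obtain ⟨ε₁, hε₁, C₀, K, hconv, hlip⟩ := scon_lip hdat.sc hW
  -- `U` is Lipschitz near `γ t₀`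
  obtain ⟨K₂, S₂, hS₂, hlip₂⟩ := (ContDiffAt.exists_lipschitzOnWith (f := fun y : ℂ => C₀ * ‖y‖ ^ 2)
    (x := γ t₀) ((contDiffAt_const.mul (contDiffAt_id.norm_sq ℝ))))
  have hUlip : ∀ y ∈ ball (γ t₀) ε₁ ∩ S₂, ∀ z ∈ ball (γ t₀) ε₁ ∩ S₂,
      |U y - U z| ≤ (K + K₂) * ‖y - z‖ := by
    intro y hy z hz
    have h1 := hlip.norm_sub_le hy.1 hz.1
    have h2 := hlip₂.norm_sub_le hy.2 hz.2
    rw [Real.norm_eq_abs] at h1 h2
    have h3 : U y - U z = (U y + C₀ * ‖y‖ ^ 2 - (U z + C₀ * ‖z‖ ^ 2)) -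
        (C₀ * ‖y‖ ^ 2 - C₀ * ‖z‖ ^ 2) := by ring
    rw [h3]
    refine (abs_sub _ _).trans ?_
    rw [add_mul]
    exact add_le_add h1 h2
  have hN : ball (γ t₀) ε₁ ∩ S₂ ∈ 𝓝 (γ t₀) := Filter.inter_mem (ball_mem_nhds _ hε₁) hS₂
  -- the comparison function
  set e := deriv γ t₀ with he
  have hγd : HasDerivAt γ e t₀ := (hγ.differentiableAt (by simp)).hasDerivAt
  have hline : HasDerivAt (fun s : ℝ => γ t₀ + ((s - t₀ : ℝ) : ℂ) * e) e t₀ := by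
    have h1 : HasDerivAt (fun s : ℝ => ((s - t₀ : ℝ) : ℂ)) 1 t₀ := by
      have := ((hasDerivAt_id t₀).sub_const t₀).ofReal_comp
      simpa using this
    have h2 := (h1.mul_const e).const_add (γ t₀)
    simpa using h2
  have hG : HasDerivWithinAt (fun s : ℝ => U (γ t₀ + ((s - t₀ : ℝ) : ℂ) * e))
      ((B i (γ t₀) * e).re) (Ioi t₀) t₀ := by
    have h1 : HasDerivWithinAt (fun s : ℝ => s - t₀) 1 (Ioi t₀) t₀ :=
      ((hasDerivAt_id t₀).sub_const t₀).hasDerivWithinAt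
    have hi' : HasDerivWithinAt (fun t : ℝ => U (γ t₀ + t * e)) ((B i (γ t₀) * e).re)
        (Ioi 0) ((fun s : ℝ => s - t₀) t₀) := by
      simpa using hi
    have h2 := HasDerivWithinAt.scomp (h := fun s : ℝ => s - t₀) (s := Ioi t₀) t₀ hi' h1
      (fun s hs => by
        simp only [mem_Ioi] at hs ⊢
        linarith)
    simpa [Function.comp_def] using h2
  have hR : HasDerivAt (fun s : ℝ => U (γ s) - U (γ t₀ + ((s - t₀ : ℝ) : ℂ) * e)) 0 t₀ := by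
    rw [hasDerivAt_iff_isLittleO]
    have hdiff := hγd.sub hline
    rw [sub_self, hasDerivAt_iff_isLittleO] at hdiff
    have hO : (fun s : ℝ => (U (γ s) - U (γ t₀ + ((s - t₀ : ℝ) : ℂ) * e)) -
        (U (γ t₀) - U (γ t₀ + ((t₀ - t₀ : ℝ) : ℂ) * e)) - (s - t₀) • (0 : ℝ)) =O[𝓝 t₀]
        (fun s : ℝ => (γ - fun s : ℝ => γ t₀ + ((s - t₀ : ℝ) : ℂ) * e) s -
          (γ - fun s : ℝ => γ t₀ + ((s - t₀ : ℝ) : ℂ) * e) t₀ - (s - t₀) • (0 : ℂ)) := by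
      apply Asymptotics.IsBigO.of_bound ((K : ℝ) + K₂)
      have e1 : ∀ᶠ s in 𝓝 t₀, γ s ∈ ball (γ t₀) ε₁ ∩ S₂ := hγd.continuousAt.eventually hN
      have e2 : ∀ᶠ s in 𝓝 t₀, γ t₀ + ((s - t₀ : ℝ) : ℂ) * e ∈ ball (γ t₀) ε₁ ∩ S₂ := by
        have h3 := hline.continuousAt
        have h4 : ball (γ t₀) ε₁ ∩ S₂ ∈ 𝓝 (γ t₀ + ((t₀ - t₀ : ℝ) : ℂ) * e) := by
          simpa using hN
        exact h3.eventually h4
      filter_upwards [e1, e2] with s hs1 hs2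
      have h5 := hUlip _ hs1 _ hs2
      simpa using h5
    exact hO.trans_isLittleO hdiff
  have hsum := hG.add hR.hasDerivWithinAt
  rw [add_zero] at hsum
  refine hsum.congr_of_eventuallyEq ?_ ?_
  · apply Filter.Eventually.of_forall
    intro s
    simp
  · simp

theorem main : S_DIR → S_CURVE := by
  intro hD r W U B hdat γ a b hγ
  exact ⟨fun t ht => part1 hdat.sc (hγ t ht).1 (hγ t ht).2,
    fun t ht => part2 hD hdat (hγ t ht).1 (hγ t ht).2⟩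

end Pool.Agent.W271.CQ
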